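import Mathlib

namespace Pool.Agent.Results.MP_fdecab_lc.No

open FirstOrder FirstOrder.Language Filter

universe w

section
variable (L : FirstOrder.Language.{0, 0}) (M : Type w) [L.Structure M]

/-- externally definable colourings of the copies of the enumerated structure A in M -/
def ExtDef (A : Type w) [L.Structure A] (k : ℕ) (χ : (A ↪[L] M) → Fin k) : Prop :=
  ∃ (N : Type w) (_ : L.Structure N) (j : M ↪ₑ[L] N) (m : ℕ) (e : Fin m → N)
    (φ : Fin k → L.Formula (Fin m ⊕ A)),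
    ∀ (f : A ↪[L] M) (i : Fin k), χ f = i ↔ (φ i).Realize (Sum.elim e (fun a => j (f a)))

def EDRP : Prop :=
  ∀ (A B : Type w) [L.Structure A] [L.Structure B], Finite A → Finite B → Nonempty (A ↪[L] M) →
    Nonempty (B ↪[L] M) → ∀ k, 0 < k → ∀ χ, ExtDef L M A k χ → ∃ b : B ↪[L] M,
      ∀ f g : A ↪[L] M, Set.range f ⊆ Set.range b → Set.range g ⊆ Set.range b → χ f = χ g

variable {L M} {n : ℕ}

/-- complete n-types over M -/
def IsType (p : Set (L.Formula (Fin n ⊕ M))) : Prop :=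
  (∀ φ, φ.not ∈ p ↔ φ ∉ p) ∧
    ∀ s : Set (L.Formula (Fin n ⊕ M)), s.Finite → s ⊆ p →
      ∃ v : Fin n → M, ∀ φ ∈ s, φ.Realize (Sum.elim v id)

def act (g : M ≃[L] M) (p : Set (L.Formula (Fin n ⊕ M))) : Set (L.Formula (Fin n ⊕ M)) :=
  {φ | φ.relabel (Sum.map id g.symm) ∈ p}

/-- non-empty, closed (Stone topology), invariant sets of types -/
def Subflow (X : Set (Set (L.Formula (Fin n ⊕ M)))) : Prop :=
  (∀ p ∈ X, IsType p) ∧ X.Nonempty ∧ (∀ q, IsType q → (∀ φ ∈ q, ∃ p ∈ X, φ ∈ p) → q ∈ X) ∧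
    ∀ g, ∀ p ∈ X, act g p ∈ X

variable (L M) in
def FPT : Prop := ∀ n, 0 < n → ∀ X : Set (Set (L.Formula (Fin n ⊕ M))), Subflow X →
  ∃ p ∈ X, ∀ g, act g p = p

theorem ent {p : Set (L.Formula (Fin n ⊕ M))} (h : IsType p) {a b c : L.Formula (Fin n ⊕ M)}
    (ha : a ∈ p) (hb : b ∈ p) (H : ∀ v : Fin n → M, a.Realize (Sum.elim v id) →
      b.Realize (Sum.elim v id) → c.Realize (Sum.elim v id)) : c ∈ p := by
  by_contra d
  obtain ⟨v, hv⟩ := h.2 {a, b, c.not} (Set.toFinite _) (by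
    rintro _ (rfl | rfl | rfl)
    exacts [ha, hb, (h.1 _).2 d])
  exact Formula.realize_not.1 (hv c.not (by simp)) (H v (hv a (by simp)) (hv b (by simp)))

theorem eqv {p : Set (L.Formula (Fin n ⊕ M))} (h : IsType p) {a b : L.Formula (Fin n ⊕ M)}
    (H : ∀ v : Fin n → M, a.Realize (Sum.elim v id) ↔ b.Realize (Sum.elim v id)) :
    a ∈ p ↔ b ∈ p :=
  ⟨fun x => ent h x x fun v y _ => (H v).1 y, fun x => ent h x x fun v y _ => (H v).2 y⟩

theorem lim {X : Set (Set (L.Formula (Fin n ⊕ M)))} (h : Subflow X) {I : Type*}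
    (𝒰 : Ultrafilter I) (p : I → Set (L.Formula (Fin n ⊕ M))) (hp : ∀ i, p i ∈ X) :
    {φ | ∀ᶠ i in 𝒰, φ ∈ p i} ∈ X := by
  refine h.2.2.1 _ ⟨fun φ => ?_, fun s hs a => ?_⟩ fun φ a => ?_
  · simp only [Set.mem_ofPred_eq, ← Ultrafilter.eventually_not, (h.1 _ (hp _)).1]
  · obtain ⟨i, hi⟩ := ((eventually_all_finite hs).2 a).exists
    exact (h.1 _ (hp i)).2 s hs hi
  · obtain ⟨i, hi⟩ := Eventually.exists a
    exact ⟨_, hp i, hi⟩

theorem realize {p : Set (L.Formula (Fin n ⊕ M))} (h : IsType p) (hn : 0 < n) :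
    ∃ (N : Type w) (_ : L.Structure N) (j : M ↪ₑ[L] N) (e : Fin n → N),
      ∀ φ, φ ∈ p ↔ φ.Realize (Sum.elim e j) := by
  classical
  choose v hv using fun s : Finset p => h.2 (Subtype.val '' (s : Set p)) (Set.toFinite _)
    (by rintro _ ⟨x, -, rfl⟩; exact x.2)
  haveI : Nonempty M := ⟨v ∅ ⟨0, hn⟩⟩
  let 𝒰 := Ultrafilter.of (atTop : Filter (Finset p))
  have k : ∀ φ ∈ p, ∀ᶠ s in 𝒰, φ.Realize (Sum.elim (v s) id) := fun φ a => by
    refine (Ultrafilter.of_le _) ?_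
    filter_upwards [eventually_ge_atTop ({⟨φ, a⟩} : Finset p)] with s hs
    exact hv s φ ⟨_, hs (Finset.mem_singleton_self _), rfl⟩
  refine ⟨(𝒰 : Filter (Finset p)).Product (fun _ => M), inferInstance,
    ⟨fun x => ((fun _ => x : ∀ _ : Finset p, M) :
      (𝒰 : Filter (Finset p)).Product (fun _ => M)), fun m φ x => ?_⟩,
    fun i => ((fun s => v s i : ∀ _ : Finset p, M) :
      (𝒰 : Filter (Finset p)).Product (fun _ => M)), fun φ => ?_⟩
  · exact (Ultraproduct.realize_formula_cast φ (fun i _ => x i)).trans (by simp)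
  · have := Ultraproduct.realize_formula_cast (u := 𝒰) φ (fun i s => Sum.elim (v s) id i)
    refine Iff.trans ⟨k φ, fun a => ?_⟩ (this.symm.trans (by
      rw [iff_eq_eq]
      congr 1
      funext i
      cases i <;> rfl))
    by_contra c
    obtain ⟨s, x, y⟩ := (a.and (k _ ((h.1 _).2 c))).exists
    exact Formula.realize_not.1 y x

def R (g : M → M) (φ : L.Formula (Fin n ⊕ M)) := φ.relabel (Sum.map id g : _ → Fin n ⊕ M)

theorem real_R (g : M → M) (φ : L.Formula (Fin n ⊕ M)) (v : Fin n → M) (u : M → M) :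
    (R g φ).Realize (Sum.elim v u) ↔ φ.Realize (Sum.elim v (u ∘ g)) := by
  rw [R, Formula.realize_relabel, Sum.elim_comp_map]
  rfl

theorem RR {p : Set (L.Formula (Fin n ⊕ M))} (h : IsType p) (g g' : M → M)
    (φ : L.Formula (Fin n ⊕ M)) : R g (R g' φ) ∈ p ↔ R (g ∘ g') φ ∈ p :=
  eqv h fun v => by simp only [real_R]; rfl

def Fix (φ : L.Formula (Fin n ⊕ M)) (q : Set (L.Formula (Fin n ⊕ M))) : Prop :=
  ∀ g g' : M ≃[L] M, R g φ ∈ q → R g' φ ∈ q

theorem step [L.IsRelational] (hU : L.IsUltrahomogeneous M) (hE : EDRP L M) (hn : 0 < n)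
    {X : Set (Set (L.Formula (Fin n ⊕ M)))} (h : Subflow X) (φ : L.Formula (Fin n ⊕ M)) :
    Subflow {q | q ∈ X ∧ Fix φ q} := by
  classical
  refine ⟨fun p a => h.1 p a.1, ?_, fun q hq a => ⟨h.2.2.1 q hq fun ψ b => ?_, fun g g' b => ?_⟩,
    fun g p a => ⟨h.2.2.2 g p a.1, fun k k' b => ?_⟩⟩
  rotate_left
  · exact (a ψ b).imp fun p c => ⟨c.1.1, c.2⟩
  · by_contra c
    obtain ⟨p, ⟨x, y⟩, z⟩ := a (R g φ ⊓ (R g' φ).not)
      (ent hq b ((hq.1 _).2 c) fun v x y => Formula.realize_inf.2 ⟨x, y⟩)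
    have t := h.1 p x
    exact (t.1 _).1 (ent t z z fun v x _ => (Formula.realize_inf.1 x).2)
      (y _ _ (ent t z z fun v x _ => (Formula.realize_inf.1 x).1))
  · have t := h.1 p a.1
    exact (RR t g.symm k' φ).2 (a.2 (g.symm.comp k) (g.symm.comp k') ((RR t g.symm k φ).1 b))
  obtain ⟨p, hp⟩ := h.2.1
  have t := h.1 p hp
  obtain ⟨N, _, j, e, he⟩ := realize t hn
  let S (s : Finset M) := Substructure.closure L (s : Set M)
  have fg : ∀ s, (S s).FG := fun s => ⟨s, rfl⟩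
  have sub : ∀ s x, x ∈ s → x ∈ S s := fun s x a => Substructure.subset_closure a
  let A : Finset M := φ.freeVarFinset.preimage Sum.inr Sum.inr_injective.injOn
  obtain ⟨ψ, hψ⟩ : ∃ ψ : L.Formula (Fin n ⊕ S A), ∀ (v : Fin n → M) (u : M → M),
      ψ.Realize (Sum.elim v fun x => u x) ↔ φ.Realize (Sum.elim v u) := by
    refine ⟨φ.restrictFreeVar fun x => match x with
      | ⟨.inl i, _⟩ => .inl i
      | ⟨.inr x, a⟩ => .inr ⟨x, sub _ _ (Finset.mem_preimage.2 a)⟩, fun v u => ?_⟩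
    exact BoundedFormula.realize_restrictFreeVar _ (by rintro ⟨i | x, a⟩ <;> rfl)
  let P (f : S A → M) := ψ.relabel (Sum.map id f : _ → Fin n ⊕ M) ∈ p
  have hP : ∀ g : M → M, P (fun x => g x) ↔ R g φ ∈ p := fun g => eqv t fun v => by
    rw [real_R, Formula.realize_relabel, Sum.elim_comp_map, ← hψ]
    rfl
  have : ∀ s : Finset M, ∃ g : M ≃[L] M, ∀ k k' : M ≃[L] M, (∀ x : S A, k x ∈ s ∧ k' x ∈ s) →
      R (g ∘ k) φ ∈ p → R (g ∘ k') φ ∈ p := by
    intro s
    obtain ⟨b, hb⟩ := hE (S A) (S s) (fg _).finite (fg _).finite ⟨(S A).subtype⟩ ⟨(S s).subtype⟩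
      2 two_pos (fun f => if P f then 0 else 1) ⟨N, _, j, n, e, ![ψ, ψ.not], fun f i => by
        have : P f ↔ ψ.Realize (Sum.elim e fun a => j (f a)) := by
          simp only [P]
          rw [he, Formula.realize_relabel, Sum.elim_comp_map]
          rfl
        fin_cases i <;> simp [this]⟩
    obtain ⟨g, rfl⟩ := hU _ (fg s) b
    refine ⟨g, fun k k' a c => ?_⟩
    have := hb ((g.comp k).toEmbedding.comp (S A).subtype) ((g.comp k').toEmbedding.comp (S A).subtype)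
      (by rintro _ ⟨x, rfl⟩; exact ⟨⟨_, sub _ _ (a x).1⟩, rfl⟩)
      (by rintro _ ⟨x, rfl⟩; exact ⟨⟨_, sub _ _ (a x).2⟩, rfl⟩)
    beta_reduce at this
    by_contra d
    rw [if_pos, if_neg] at this
    · exact absurd this (by decide)
    · exact fun x => d ((hP _).1 x)
    · exact (hP _).2 c
  choose g hg using this
  refine ⟨_, lim h (Ultrafilter.of (atTop : Filter (Finset M))) (fun s => act (g s).symm p)
    (fun s => h.2.2.2 _ _ hp), fun k k' a => ?_⟩
  haveI : Finite (S A) := (fg _).finite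
  have : ∀ᶠ s : Finset M in Ultrafilter.of (atTop : Filter (Finset M)), ∀ x : S A, k x ∈ s ∧ k' x ∈ s := by
    refine (Ultrafilter.of_le _) (eventually_all.2 fun x => ?_)
    filter_upwards [eventually_ge_atTop {k x, k' x}] with s hs
    exact ⟨hs (by simp), hs (by simp)⟩
  filter_upwards [this, a] with s x y
  exact (RR t (g s) k' φ).2 (hg s k k' x ((RR t (g s) k φ).1 y))

end

theorem result (L : FirstOrder.Language.{0, 0}) [L.IsRelational] (M : Type w) [L.Structure M]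
    (hU : L.IsUltrahomogeneous M) (hE : EDRP L M) : FPT L M := by
  classical
  intro n hn X h
  have : ∀ s : Finset (L.Formula (Fin n ⊕ M)), Subflow {q | q ∈ X ∧ ∀ φ ∈ s, Fix φ q} := by
    intro s
    induction s using Finset.induction_on with
    | empty => simpa using h
    | insert φ s _ i =>
      convert step hU hE hn i φ using 3
      simp only [Finset.forall_mem_insert, Set.mem_ofPred_eq]
      tauto
  choose p hp using fun s => (this s).2.1
  let 𝒰 := Ultrafilter.of (atTop : Filter (Finset (L.Formula (Fin n ⊕ M))))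
  have m := lim h 𝒰 p (fun s => (hp s).1)
  have f : ∀ φ, Fix φ {φ | ∀ᶠ s in 𝒰, φ ∈ p s} := by
    intro φ k k' a
    have : ∀ᶠ s : Finset (L.Formula (Fin n ⊕ M)) in 𝒰, φ ∈ s := by
      refine (Ultrafilter.of_le _) ?_
      filter_upwards [eventually_ge_atTop {φ}] with s hs
      exact hs (by simp)
    filter_upwards [this, a] with s x y
    exact (hp s).2 φ x k k' y
  refine ⟨_, m, fun g => Set.ext fun φ => ?_⟩
  have e : R (Language.Equiv.refl L M) φ ∈ _ ↔ φ ∈ _ := eqv (h.1 _ m) fun v => real_R _ _ _ _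
  rw [← e]
  exact ⟨f φ g.symm _, f φ _ g.symm⟩

end Pool.Agent.Results.MP_fdecab_lc.No
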